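import Pool.Agent.X13.TT.RR

/-!
# Truncated theta tails over the Rogers–Ramanujan products have non-negative coefficients

For all `k ≥ 1` and `S ∈ {1,...,6}` all coefficients of `F_{k,S}(q) = (-1)^k T_{k,S}(q)/(q,q^4;q^5)_∞`
and `G_{k,S}(q) = (-1)^k T_{k,S}(q)/(q^2,q^3;q^5)_∞` are non-negative.

Idea: already `(-1)^k T_{k,S}(q)` divided by `(1-q)(1-q^4)(1-q^9)(1-q^11)`, respectively by
`(1-q^2)(1-q^3)(1-q^7)(1-q^13)`, has non-negative coefficients.  The coefficients of the reciprocal of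
such a product of four pairwise coprime factors are a cubic polynomial up to a bounded error,
alternating sums of a cubic polynomial along the progression of exponents are evaluated exactly, and
the main term beats the error; for small `n` the coefficients are computed.
-/

namespace Pool.Agent.Results.MP_c002f6_nt.AllNonneg

open PowerSeries Finset

/-- the exponent `7j(j+1)/2 - jS` (for `S ≤ 6` it is a natural number, `≥ j`) -/
def e (S j : ℕ) : ℕ := 7 * j * (j + 1) / 2 - j * S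

/-- `T_{k,S}(q) = ∑_{j ≥ k} (-1)^j q^{7j(j+1)/2-jS} (1 - q^{(2j+1)S})`: since all exponents with index
`j` are `≥ j`, only the indices `k ≤ j ≤ n` contribute to the coefficient of `q^n` -/
noncomputable def T (k S : ℕ) : ℤ⟦X⟧ :=
  PowerSeries.mk fun n => ∑ j ∈ (range (n + 1)).filter (fun j => k ≤ j),
    (-1) ^ j * ((if e S j = n then 1 else 0) - (if e S j + (2 * j + 1) * S = n then 1 else 0))

/-- `∏_{i ≥ 1, P i} (1 - q^i)`: the coefficient of `q^n` is that of the finite product over `i ≤ n`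
(the later factors do not change it) -/
noncomputable def prodOver (P : ℕ → Prop) [DecidablePred P] : ℤ⟦X⟧ :=
  PowerSeries.mk fun n => coeff n (∏ i ∈ (Icc 1 n).filter P, (1 - (X : ℤ⟦X⟧) ^ i))

/-- `(q,q^4;q^5)_∞` -/
noncomputable def D1 : ℤ⟦X⟧ := prodOver fun i => i % 5 = 1 ∨ i % 5 = 4

/-- `(q^2,q^3;q^5)_∞` -/
noncomputable def D2 : ℤ⟦X⟧ := prodOver fun i => i % 5 = 2 ∨ i % 5 = 3

/-- `F_{k,S}(q) = (-1)^k T_{k,S}(q)/(q,q^4;q^5)_∞` -/
noncomputable def F (k S : ℕ) : ℤ⟦X⟧ := (-1) ^ k * T k S * invOfUnit D1 1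

/-- `G_{k,S}(q) = (-1)^k T_{k,S}(q)/(q^2,q^3;q^5)_∞` -/
noncomputable def G (k S : ℕ) : ℤ⟦X⟧ := (-1) ^ k * T k S * invOfUnit D2 1

/-- for every `k ≥ 1` and `S ∈ {1,...,6}`: `invOfUnit D1 1`, `invOfUnit D2 1` are the inverses of the
two products, and all coefficients of `F_{k,S}` and `G_{k,S}` are non-negative -/
theorem result : D1 * invOfUnit D1 1 = 1 ∧ D2 * invOfUnit D2 1 = 1 ∧
    ∀ k S : ℕ, 1 ≤ k → 1 ≤ S → S ≤ 6 → ∀ n : ℕ, 0 ≤ coeff n (F k S) ∧ 0 ≤ coeff n (G k S) := by
  have hunit : ∀ (P : ℕ → Prop) [DecidablePred P], prodOver P * invOfUnit (prodOver P) 1 = 1 := by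
    intro P _
    apply mul_invOfUnit
    rw [← coeff_zero_eq_constantCoeff_apply, prodOver, coeff_mk]
    simp
  refine ⟨hunit _, hunit _, ?_⟩
  intro k S hk hS1 hS6 n
  have hge : ∀ j, j ≤ e S j := Pool.Agent.X13.TT.ra_ge S hS6
  have hT : (-1) ^ k * T k S
      = Pool.Agent.X13.TT.th (Pool.Agent.X13.TT.ra S) (Pool.Agent.X13.TT.rb S) k := by
    ext m
    have h0 : ((-1 : ℤ⟦X⟧)) ^ k = C ((-1 : ℤ) ^ k) := by simp
    rw [h0, coeff_C_mul, T, coeff_mk, Pool.Agent.X13.TT.th, coeff_mk, Pool.Agent.X13.TT.thc,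
      mul_sum]
    have h1 : ∑ j ∈ (range (m + 1)).filter (fun j => k ≤ j), (-1 : ℤ) ^ k * ((-1) ^ j *
        ((if e S j = m then 1 else 0) - (if e S j + (2 * j + 1) * S = m then 1 else 0)))
        = ∑ j ∈ (range (k + (m + 1))).filter (fun j => k ≤ j), (-1 : ℤ) ^ k * ((-1) ^ j *
        ((if e S j = m then 1 else 0) - (if e S j + (2 * j + 1) * S = m then 1 else 0))) := by
      refine sum_subset (filter_subset_filter _ (range_subset_range.mpr (by omega)))
        fun j hj hj2 => ?_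
      rw [mem_filter, mem_range] at hj hj2
      have := hge j
      rw [if_neg (by omega), if_neg (by omega)]; simp
    rw [h1]
    symm
    refine sum_bij (fun j _ => k + j) ?_ ?_ ?_ ?_
    · intro j hj
      rw [mem_range] at hj
      rw [mem_filter, mem_range]; omega
    · intro i _ j _ h
      have : k + i = k + j := h
      omega
    · intro j hj
      rw [mem_filter, mem_range] at hj
      exact ⟨j - k, by rw [mem_range]; omega, by show k + (j - k) = j; omega⟩
    · intro j _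
      have hs : (-1 : ℤ) ^ k * (-1) ^ (k + j) = (-1) ^ j := by
        rw [pow_add, ← mul_assoc, ← pow_add, ← two_mul, pow_mul]; simp
      show _ = (-1 : ℤ) ^ k * ((-1) ^ (k + j) * _)
      rw [← mul_assoc, hs]
      rfl
  constructor
  · rw [F, hT]
    exact Pool.Agent.X13.TT.nonneg_of_agree (fun i => i % 5 = 1 ∨ i % 5 = 4) _ _
      (Pool.Agent.X13.TT.agree_inv _) [1, 4, 9, 11] (by decide) (by decide)
      (Pool.Agent.X13.TT.F_nonneg S hS1 hS6 k hk) n
  · rw [G, hT]
    exact Pool.Agent.X13.TT.nonneg_of_agree (fun i => i % 5 = 2 ∨ i % 5 = 3) _ _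
      (Pool.Agent.X13.TT.agree_inv _) [2, 3, 7, 13] (by decide) (by decide)
      (Pool.Agent.X13.TT.G_nonneg S hS1 hS6 k hk) n

end Pool.Agent.Results.MP_c002f6_nt.AllNonneg
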